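import Mathlib

/-! Laplace transforms on the half line: convolution, derivative, uniqueness. -/

set_option autoImplicit false
open MeasureTheory Set Filter Topology

namespace Pool.Agent.H610Z.Lap

noncomputable def E (β : ℝ) (f : ℝ → ℝ) : ℝ → ℝ := fun x => Real.exp (-(β * x)) * f x

def InL (f : ℝ → ℝ) : Prop := ∀ᶠ β in atTop, IntegrableOn (E β f) (Ioi 0)

noncomputable def lap (f : ℝ → ℝ) (β : ℝ) : ℝ := ∫ x in Ioi (0 : ℝ), E β f x

noncomputable def conv (f h : ℝ → ℝ) (x : ℝ) : ℝ := ∫ t in (0 : ℝ)..x, f t * h (x - t)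

theorem E_conv (β : ℝ) (f h : ℝ → ℝ) (x : ℝ) :
    E β (conv f h) x = ∫ t in (0 : ℝ)..x, E β f t * E β h (x - t) := by
  unfold E conv
  rw [← intervalIntegral.integral_const_mul]
  congr 1
  funext t
  have : Real.exp (-(β * x)) = Real.exp (-(β * t)) * Real.exp (-(β * (x - t))) := by
    rw [← Real.exp_add]; congr 1; ring
  rw [this]; ring

theorem integrableOn_E_conv {β : ℝ} {f h : ℝ → ℝ} (hf : IntegrableOn (E β f) (Ioi 0))
    (hh : IntegrableOn (E β h) (Ioi 0)) : IntegrableOn (E β (conv f h)) (Ioi 0) := by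
  have h1 := integrable_posConvolution (μ := volume) (ν := volume) hf hh
    (ContinuousLinearMap.mul ℝ ℝ)
  unfold posConvolution at h1
  rw [integrable_indicator_iff measurableSet_Ioi] at h1
  refine h1.congr_fun ?_ measurableSet_Ioi
  intro x _
  simp [E_conv]

theorem lap_conv {β : ℝ} {f h : ℝ → ℝ} (hf : IntegrableOn (E β f) (Ioi 0))
    (hh : IntegrableOn (E β h) (Ioi 0)) : lap (conv f h) β = lap f β * lap h β := by
  have h1 := integral_posConvolution (μ := volume) (ν := volume) hf hh
    (ContinuousLinearMap.mul ℝ ℝ)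
  unfold lap
  simp only [E_conv]
  simpa using h1

theorem InL.conv {f h : ℝ → ℝ} (hf : InL f) (hh : InL h) : InL (conv f h) := by
  filter_upwards [hf, hh] with β h1 h2 using integrableOn_E_conv h1 h2

theorem InL.add {f h : ℝ → ℝ} (hf : InL f) (hh : InL h) : InL (fun x => f x + h x) := by
  filter_upwards [hf, hh] with β h1 h2
  have : E β (fun x => f x + h x) = fun x => E β f x + E β h x := by
    funext x; simp [E, mul_add]
  rw [this]; exact h1.add h2

theorem InL.const_mul {f : ℝ → ℝ} (hf : InL f) (c : ℝ) : InL (fun x => c * f x) := by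
  filter_upwards [hf] with β h1
  have : E β (fun x => c * f x) = fun x => c * E β f x := by
    funext x; simp only [E]; ring
  rw [this]; exact h1.const_mul c

theorem lap_add {β : ℝ} {f h : ℝ → ℝ} (hf : IntegrableOn (E β f) (Ioi 0))
    (hh : IntegrableOn (E β h) (Ioi 0)) : lap (fun x => f x + h x) β = lap f β + lap h β := by
  unfold lap
  rw [← integral_add hf hh]
  congr 1; funext x; simp [E, mul_add]

theorem lap_const_mul (β c : ℝ) (f : ℝ → ℝ) : lap (fun x => c * f x) β = c * lap f β := by
  unfold lap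
  rw [← integral_const_mul]
  congr 1; funext x; simp only [E]; ring

theorem integrableOn_E_one {β : ℝ} (hβ : 0 < β) : IntegrableOn (E β (fun _ => 1)) (Ioi 0) := by
  have := integrableOn_exp_mul_Ioi (a := -β) (by linarith) 0
  refine this.congr_fun ?_ measurableSet_Ioi
  intro x _; simp [E]

theorem lap_one {β : ℝ} (hβ : 0 < β) : lap (fun _ => 1) β = 1 / β := by
  have := integral_exp_mul_Ioi (a := -β) (by linarith) 0
  unfold lap
  have h2 : (fun x => E β (fun _ => 1) x) = fun x => Real.exp (-β * x) := by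
    funext x; simp [E]
  rw [h2, this]; simp

theorem inL_one : InL (fun _ => 1) := by
  filter_upwards [eventually_gt_atTop 0] with β hβ using integrableOn_E_one hβ

theorem InL.congr {f h : ℝ → ℝ} (hf : InL f) (e : f =ᵐ[volume.restrict (Ioi 0)] h) : InL h := by
  filter_upwards [hf] with β h1
  refine Integrable.congr h1 ?_
  filter_upwards [e] with x hx
  simp [E, hx]

theorem lap_congr {f h : ℝ → ℝ} (e : f =ᵐ[volume.restrict (Ioi 0)] h) : lap f = lap h := by
  funext β
  refine integral_congr_ae ?_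
  filter_upwards [e] with x hx
  simp [E, hx]

theorem InL.integrableOn {f : ℝ → ℝ} (hf : InL f) (b : ℝ) : IntegrableOn f (Ioc 0 b) := by
  obtain ⟨β, h1⟩ := hf.exists
  have h2 : IntegrableOn (E β f) (Ioc 0 b) := h1.mono_set Ioc_subset_Ioi_self
  have h3 : IntegrableOn (fun x => Real.exp (β * x) * E β f x) (Ioc 0 b) := by
    refine IntegrableOn.continuousOn_mul_of_subset (K := Icc 0 b) ?_ h2 isCompact_Icc
      measurableSet_Ioc Ioc_subset_Icc_self
    fun_prop
  refine h3.congr_fun ?_ measurableSet_Ioc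
  intro x _
  simp only [E]
  rw [← mul_assoc, ← Real.exp_add]; simp

theorem InL.intervalIntegrable {f : ℝ → ℝ} (hf : InL f) {b : ℝ} (hb : 0 ≤ b) :
    IntervalIntegrable f volume 0 b :=
  (intervalIntegrable_iff_integrableOn_Ioc_of_le hb).2 (hf.integrableOn b)

theorem InL.locInt {f : ℝ → ℝ} (hf : InL f) :
    LocallyIntegrable (indicator (Ioi 0) f) volume := by
  rw [locallyIntegrable_iff]
  intro k hk
  obtain ⟨b, hb⟩ := hk.bddAbove
  rw [IntegrableOn, integrable_indicator_iff measurableSet_Ioi, IntegrableOn,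
    Measure.restrict_restrict measurableSet_Ioi]
  refine (hf.integrableOn b).mono_set ?_
  intro x hx
  exact ⟨hx.1, hb hx.2⟩

theorem norm_xE_le (β b x : ℝ) (f : ℝ → ℝ) (hx : 0 < x) (hb : β - 1 / 2 ≤ b) :
    ‖x * E b f x‖ ≤ 2 * ‖E (β - 1) f x‖ := by
  simp only [E, norm_mul, Real.norm_eq_abs, abs_of_pos hx, abs_of_pos (Real.exp_pos _)]
  have h1 : x ≤ 2 * Real.exp (x / 2) := by
    have := Real.add_one_le_exp (x / 2); linarith
  have h2 : Real.exp (x / 2) * Real.exp (-(b * x)) ≤ Real.exp (-((β - 1) * x)) := by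
    rw [← Real.exp_add]; apply Real.exp_le_exp.2; nlinarith
  have h3 := abs_nonneg (f x)
  have h4 := Real.exp_pos (-(b * x))
  calc x * (Real.exp (-(b * x)) * |f x|) ≤ (2 * Real.exp (x / 2)) * (Real.exp (-(b * x)) * |f x|) :=
        mul_le_mul_of_nonneg_right h1 (by positivity)
    _ = 2 * ((Real.exp (x / 2) * Real.exp (-(b * x))) * |f x|) := by ring
    _ ≤ 2 * (Real.exp (-((β - 1) * x)) * |f x|) := by gcongr

theorem InL.aesm {f : ℝ → ℝ} (hf : InL f) : AEStronglyMeasurable f (volume.restrict (Ioi 0)) := by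
  obtain ⟨β, h1⟩ := hf.exists
  have h2 : AEStronglyMeasurable (fun x => Real.exp (β * x) * E β f x) (volume.restrict (Ioi 0)) :=
    (by fun_prop : Continuous fun x => Real.exp (β * x)).aestronglyMeasurable.mul h1.1
  refine h2.congr (Eventually.of_forall fun x => ?_)
  simp only [E]
  rw [← mul_assoc, ← Real.exp_add]; simp

theorem aesm_E {f : ℝ → ℝ} (hf : AEStronglyMeasurable f (volume.restrict (Ioi 0))) (β : ℝ) :
    AEStronglyMeasurable (E β f) (volume.restrict (Ioi 0)) :=
  (by fun_prop : Continuous fun x => Real.exp (-(β * x))).aestronglyMeasurable.mul hf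

theorem InL.shift {f : ℝ → ℝ} (hf : InL f) :
    ∀ᶠ β in atTop, IntegrableOn (E (β - 1) f) (Ioi 0) :=
  (tendsto_atTop_add_const_right atTop (-1) tendsto_id).eventually hf

theorem InL.id_mul {f : ℝ → ℝ} (hf : InL f) : InL (fun x => x * f x) := by
  filter_upwards [hf.shift] with β h1
  refine Integrable.mono' (h1.norm.const_mul 2) ?_ ?_
  · exact aesm_E (continuous_id.aestronglyMeasurable.mul hf.aesm) β
  · refine (ae_restrict_iff' measurableSet_Ioi).2 (Eventually.of_forall fun x hx => ?_)
    have := norm_xE_le β β x f hx (by linarith)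
    have e : E β (fun x => x * f x) x = x * E β f x := by simp only [E]; ring
    rw [e]; exact this

theorem InL.hasDerivAt {f : ℝ → ℝ} (hf : InL f) :
    ∀ᶠ β in atTop, HasDerivAt (lap f) (-(lap (fun x => x * f x) β)) β := by
  filter_upwards [hf.shift, hf] with β h1 h2
  have key := hasDerivAt_integral_of_dominated_loc_of_deriv_le (μ := volume.restrict (Ioi 0))
    (F := fun b x => E b f x) (F' := fun b x => -(x * E b f x)) (x₀ := β)
    (s := Metric.ball β (1 / 2)) (bound := fun x => 2 * ‖E (β - 1) f x‖)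
    (Metric.ball_mem_nhds β (by norm_num))
    (Eventually.of_forall fun b => aesm_E hf.aesm b) h2
    ((continuous_id.aestronglyMeasurable.mul (aesm_E hf.aesm β)).neg)
    ((ae_restrict_iff' measurableSet_Ioi).2 (Eventually.of_forall fun x hx b hb => by
      rw [norm_neg]
      refine norm_xE_le β b x f hx ?_
      rw [Metric.mem_ball, Real.dist_eq, abs_lt] at hb
      linarith [hb.1]))
    (h1.norm.const_mul 2)
    (Eventually.of_forall fun x b _ => by
      have h3 : HasDerivAt (fun b : ℝ => -(b * x)) (-(1 * x)) b :=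
        ((hasDerivAt_id b).mul_const x).neg
      have h4 := (h3.exp).mul_const (f x)
      have e : -(x * E b f x) = Real.exp (-(b * x)) * -(1 * x) * f x := by
        simp only [E]; ring
      rw [e]
      exact h4)
  have e : -(lap (fun x => x * f x) β) = ∫ x in Ioi (0 : ℝ), -(x * E β f x) := by
    rw [integral_neg]; unfold lap; congr 2; funext x; simp only [E]; ring
  rw [e]
  exact key.2

theorem ae_zero_of_moments {F : ℝ → ℝ} (hF : IntegrableOn F (Ioi 0))
    (h : ∀ n : ℕ, ∫ x in Ioi (0 : ℝ), Real.exp (-x) ^ n * F x = 0) :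
    F =ᵐ[volume.restrict (Ioi 0)] 0 := by
  have hint : ∀ φ : ℝ → ℝ, ContinuousOn φ (Icc 0 1) →
      IntegrableOn (fun x => φ (Real.exp (-x)) * F x) (Ioi 0) := by
    intro φ hφ
    obtain ⟨C, hC⟩ := isCompact_Icc.exists_bound_of_continuousOn hφ
    have hm : ∀ x ∈ Ioi (0 : ℝ), Real.exp (-x) ∈ Icc (0 : ℝ) 1 := fun x hx =>
      ⟨(Real.exp_pos _).le, Real.exp_le_one_iff.2 (by simpa using le_of_lt hx)⟩
    refine Integrable.bdd_mul (c := C) hF ?_ ?_
    · refine ContinuousOn.aestronglyMeasurable ?_ measurableSet_Ioi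
      exact hφ.comp (by fun_prop) hm
    · exact (ae_restrict_iff' measurableSet_Ioi).2 (Eventually.of_forall fun x hx => hC _ (hm x hx))
  have hpoly : ∀ p : Polynomial ℝ, ∫ x in Ioi (0 : ℝ), p.eval (Real.exp (-x)) * F x = 0 := by
    intro p
    induction p using Polynomial.induction_on' with
    | add p q hp hq =>
      simp only [Polynomial.eval_add, add_mul]
      rw [integral_add (hint _ p.continuous.continuousOn) (hint _ q.continuous.continuousOn), hp, hq,
        add_zero]
    | monomial n a =>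
      simp only [Polynomial.eval_monomial, mul_assoc]
      rw [integral_const_mul, h n, mul_zero]
  have hcont : ∀ φ : ℝ → ℝ, ContinuousOn φ (Icc 0 1) →
      ∫ x in Ioi (0 : ℝ), φ (Real.exp (-x)) * F x = 0 := by
    intro φ hφ
    have hb : ∀ ε > 0, |∫ x in Ioi (0 : ℝ), φ (Real.exp (-x)) * F x| ≤
        ε * ∫ x in Ioi (0 : ℝ), |F x| := by
      intro ε hε
      obtain ⟨p, hp⟩ := exists_polynomial_near_of_continuousOn 0 1 φ hφ ε hε
      have e : ∫ x in Ioi (0 : ℝ), φ (Real.exp (-x)) * F x =
          ∫ x in Ioi (0 : ℝ), (φ (Real.exp (-x)) - p.eval (Real.exp (-x))) * F x := by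
        simp only [sub_mul]
        rw [integral_sub (hint _ hφ) (hint _ p.continuous.continuousOn), hpoly p, sub_zero]
      rw [e, ← integral_const_mul, ← Real.norm_eq_abs]
      refine norm_integral_le_of_norm_le (hF.abs.const_mul ε) ?_
      refine (ae_restrict_iff' measurableSet_Ioi).2 (Eventually.of_forall fun x hx => ?_)
      have hm : Real.exp (-x) ∈ Icc (0 : ℝ) 1 :=
        ⟨(Real.exp_pos _).le, Real.exp_le_one_iff.2 (by simpa using le_of_lt hx)⟩
      have := hp _ hm
      rw [norm_mul, Real.norm_eq_abs, Real.norm_eq_abs, abs_sub_comm]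
      exact mul_le_mul_of_nonneg_right this.le (abs_nonneg _)
    have hI : 0 ≤ ∫ x in Ioi (0 : ℝ), |F x| := integral_nonneg fun x => abs_nonneg _
    rw [← abs_nonpos_iff]
    refine le_of_forall_pos_le_add fun δ hδ => ?_
    have := hb (δ / ((∫ x in Ioi (0 : ℝ), |F x|) + 1)) (by positivity)
    refine this.trans ?_
    rw [zero_add, div_mul_eq_mul_div, div_le_iff₀ (by positivity)]
    nlinarith
  have key := isOpen_Ioi.ae_eq_zero_of_integral_contDiff_smul_eq_zero (μ := volume)
    (f := F) (U := Ioi (0 : ℝ)) hF.locallyIntegrableOn ?_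
  · refine (ae_restrict_iff' measurableSet_Ioi).2 ?_
    filter_upwards [key] with x hx using hx
  intro g hg hgc hgs
  have hg0 : ∀ x, x ∉ Ioi (0 : ℝ) → g x = 0 := fun x hx =>
    image_eq_zero_of_notMem_tsupport fun h => hx (hgs h)
  rw [← setIntegral_eq_integral_of_forall_compl_eq_zero (s := Ioi 0)
    (fun x hx => by simp [hg0 x hx])]
  have hφ : ContinuousOn (fun t => g (-Real.log t)) (Icc 0 1) := by
    intro t ht
    rcases ht.1.eq_or_lt with h0 | h0
    · subst h0
      obtain ⟨b, hb⟩ := hgc.isCompact.bddAbove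
      have h1 : ∀ᶠ t in 𝓝[>] (0 : ℝ), b < -Real.log t :=
        (tendsto_neg_atBot_atTop.comp Real.tendsto_log_nhdsGT_zero).eventually_gt_atTop b
      have h00 : g (-Real.log 0) = 0 := by simp [hg0]
      have h2 : ∀ᶠ t in 𝓝[≥] (0 : ℝ), g (-Real.log t) = 0 := by
        rw [← Ioi_insert, nhdsWithin_insert, eventually_sup]
        refine ⟨by simpa using h00, ?_⟩
        filter_upwards [h1] with t ht
        exact image_eq_zero_of_notMem_tsupport fun h => absurd (hb h) (not_le.2 ht)
      have h3 : ContinuousWithinAt (fun t => g (-Real.log t)) (Ici 0) 0 := by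
        refine ContinuousWithinAt.congr_of_eventuallyEq (f := fun _ => (0 : ℝ))
          continuousWithinAt_const h2 h00
      exact h3.mono Icc_subset_Ici_self
    · exact (hg.continuous.continuousAt.comp
        (Real.continuousAt_log h0.ne').neg).continuousWithinAt
  have := hcont _ hφ
  simpa using this

theorem lap_unique_zero {f : ℝ → ℝ} (hf : InL f) (h : ∀ᶠ β in atTop, lap f β = 0) :
    f =ᵐ[volume.restrict (Ioi 0)] 0 := by
  obtain ⟨b, hb⟩ := eventually_atTop.1 (hf.and h)
  have h1 : E b f =ᵐ[volume.restrict (Ioi 0)] 0 := by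
    refine ae_zero_of_moments (hb b le_rfl).1 fun n => ?_
    have h2 := (hb (b + n) (by simp)).2
    refine Eq.trans ?_ h2
    unfold lap
    congr 1
    funext x
    simp only [E]
    rw [← mul_assoc, ← Real.exp_nat_mul, ← Real.exp_add]
    congr 2; ring
  filter_upwards [h1] with x hx
  simp only [E, Pi.zero_apply, mul_eq_zero] at hx
  rcases hx with hx | hx
  · exact absurd hx (Real.exp_pos _).ne'
  · exact hx

theorem lap_unique {f h : ℝ → ℝ} (hf : InL f) (hh : InL h) (e : lap f =ᶠ[atTop] lap h) :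
    f =ᵐ[volume.restrict (Ioi 0)] h := by
  have h1 := lap_unique_zero (hf.add (hh.const_mul (-1))) (by
    filter_upwards [hf, hh.const_mul (-1), e] with β h1 h2 h3
    rw [lap_add h1 h2, lap_const_mul, h3]; ring)
  filter_upwards [h1] with x hx
  simp only [Pi.zero_apply] at hx
  linarith

end Pool.Agent.H610Z.Lap
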