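import Pool.Agent.H610Z.Lap.A

/-! Smoothness on the open half line is preserved by convolution. -/

set_option autoImplicit false
open MeasureTheory Set Filter Topology
open scoped Convolution

namespace Pool.Agent.H610Z.Lap

theorem contDiff_bump_mul {n : ℕ} {c : ℝ} (θ : ContDiffBump c) (hθ : tsupport θ ⊆ Ioi 0)
    {h : ℝ → ℝ} (hh : ContDiffOn ℝ n h (Ioi 0)) : ContDiff ℝ n (fun x => θ x * h x) := by
  rw [contDiff_iff_contDiffAt]
  intro x
  by_cases hx : x ∈ Ioi (0 : ℝ)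
  · exact (θ.contDiffAt (n := (n : ℕ∞))).mul (hh.contDiffAt (isOpen_Ioi.mem_nhds hx))
  · have h1 : x ∉ tsupport θ := fun h => hx (hθ h)
    have h2 : (θ : ℝ → ℝ) =ᶠ[𝓝 x] 0 := notMem_tsupport_iff_eventuallyEq.1 h1
    refine ContDiffAt.congr_of_eventuallyEq (f := fun _ => (0 : ℝ)) contDiffAt_const ?_
    filter_upwards [h2] with y hy
    simp [hy]

theorem conv_eq_indicator (f h : ℝ → ℝ) {x : ℝ} (hx : 0 < x) :
    conv f h x = ∫ t, indicator (Ioi 0) f t * indicator (Ioi 0) h (x - t) := by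
  have h1 := congrFun (posConvolution_eq_convolution_indicator f h (ContinuousLinearMap.mul ℝ ℝ)
    volume) x
  unfold posConvolution at h1
  rw [indicator_of_mem (mem_Ioi.2 hx)] at h1
  simpa [conv, convolution] using h1

theorem contDiffOn_conv {n : ℕ} {f h : ℝ → ℝ} (hf : InL f) (hh : InL h)
    (cf : ContDiffOn ℝ n f (Ioi 0)) (ch : ContDiffOn ℝ n h (Ioi 0)) :
    ContDiffOn ℝ n (conv f h) (Ioi 0) := by
  intro x0 hx0
  have hx0' : 0 < x0 := hx0
  refine ContDiffAt.contDiffWithinAt ?_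
  let θ : ContDiffBump x0 := ⟨2 * x0 / 3, 5 * x0 / 6, by positivity, by linarith⟩
  have hθ : tsupport θ ⊆ Ioi 0 := by
    rw [θ.tsupport_eq]
    intro y hy
    rw [Metric.mem_closedBall, Real.dist_eq, abs_le] at hy
    have : θ.rOut = 5 * x0 / 6 := rfl
    show 0 < y
    linarith [hy.1]
  have hθ0 : ∀ y, y ∉ Ioi (0 : ℝ) → θ y = 0 := fun y hy =>
    image_eq_zero_of_notMem_tsupport fun h => hy (hθ h)
  have hθ1 : ∀ y, x0 / 3 ≤ y → y ≤ 5 * x0 / 3 → θ y = 1 := by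
    intro y h1 h2
    apply θ.one_of_mem_closedBall
    rw [Metric.mem_closedBall, Real.dist_eq, abs_le]
    have : θ.rIn = 2 * x0 / 3 := rfl
    constructor <;> linarith
  have c1 : HasCompactSupport (fun x => θ x * h x) := θ.hasCompactSupport.mul_right
  have c2 : HasCompactSupport (fun x => θ x * f x) := θ.hasCompactSupport.mul_right
  have d1 := contDiff_bump_mul θ hθ ch
  have d2 := contDiff_bump_mul θ hθ cf
  have l2 : LocallyIntegrable (fun x => (1 - θ x) * indicator (Ioi 0) h x) volume := by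
    rw [← locallyIntegrableOn_univ]
    refine LocallyIntegrableOn.continuousOn_mul (locallyIntegrableOn_univ.2 hh.locInt) ?_
      isClosed_univ.isLocallyClosed
    exact (continuous_const.sub θ.continuous).continuousOn
  have s1 : ContDiff ℝ n (indicator (Ioi 0) f ⋆[ContinuousLinearMap.mul ℝ ℝ, volume]
      (fun x => θ x * h x)) :=
    c1.contDiff_convolution_right (n := (n : ℕ∞)) _ hf.locInt d1
  have s2 : ContDiff ℝ n ((fun x => θ x * f x) ⋆[ContinuousLinearMap.mul ℝ ℝ, volume]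
      (fun x => (1 - θ x) * indicator (Ioi 0) h x)) :=
    c2.contDiff_convolution_left (n := (n : ℕ∞)) _ d2 l2
  refine (s1.add s2).contDiffAt.congr_of_eventuallyEq ?_
  filter_upwards [Ioo_mem_nhds (show 2 * x0 / 3 < x0 by linarith)
    (show x0 < 5 * x0 / 3 by linarith)] with x hx
  have hxpos : 0 < x := by linarith [hx.1]
  have e1 := c1.convolutionExists_right (ContinuousLinearMap.mul ℝ ℝ) hf.locInt d1.continuous x
  have e2 := c2.convolutionExists_left (ContinuousLinearMap.mul ℝ ℝ) d2.continuous l2 x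
  rw [conv_eq_indicator f h hxpos]
  simp only [convolution]
  rw [← integral_add e1 e2]
  congr 1
  funext t
  simp only [ContinuousLinearMap.mul_apply']
  by_cases ht : t ∈ Ioi (0 : ℝ)
  · by_cases hxt : x - t ∈ Ioi (0 : ℝ)
    · rw [indicator_of_mem ht, indicator_of_mem hxt]
      have ht' : 0 < t := ht
      have hxt' : 0 < x - t := hxt
      by_cases h3 : x0 / 3 ≤ x - t
      · rw [hθ1 (x - t) h3 (by linarith [hx.2])]; ring
      · rw [hθ1 t (by linarith [hx.1]) (by linarith [hx.2])]; ring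
    · rw [indicator_of_notMem hxt, hθ0 _ hxt]; ring
  · rw [indicator_of_notMem ht, hθ0 _ ht]; ring

/-- The primitive vanishing at zero. -/
noncomputable def prim (f : ℝ → ℝ) (x : ℝ) : ℝ := ∫ t in (0 : ℝ)..x, f t

theorem prim_eq_conv (f : ℝ → ℝ) : prim f = conv f (fun _ => 1) := by
  funext x; simp [prim, conv]

theorem InL.prim {f : ℝ → ℝ} (hf : InL f) : InL (prim f) := by
  rw [prim_eq_conv]; exact hf.conv inL_one

theorem lap_prim {f : ℝ → ℝ} (hf : InL f) : lap (prim f) =ᶠ[atTop] fun β => lap f β / β := by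
  filter_upwards [hf, eventually_gt_atTop 0] with β h1 h2
  rw [prim_eq_conv, lap_conv h1 (integrableOn_E_one h2), lap_one h2]; ring

theorem prim_eq_ind (f : ℝ → ℝ) {x : ℝ} (hx : 0 < x) :
    prim f x = ∫ t in (0 : ℝ)..x, indicator (Ioi 0) f t := by
  unfold prim
  rw [intervalIntegral.integral_of_le hx.le, intervalIntegral.integral_of_le hx.le]
  refine setIntegral_congr_fun measurableSet_Ioc fun t ht => ?_
  rw [indicator_of_mem (mem_Ioi.2 ht.1)]

theorem continuousOn_prim {f : ℝ → ℝ} (hf : InL f) : ContinuousOn (prim f) (Ioi 0) := by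
  have h1 : Continuous fun x => ∫ t in (0 : ℝ)..x, indicator (Ioi 0) f t := by
    refine intervalIntegral.continuous_primitive (fun a b => ?_) 0
    exact intervalIntegrable_iff.mpr <|
      (hf.locInt.integrableOn_isCompact isCompact_uIcc).mono_set uIoc_subset_uIcc
  exact h1.continuousOn.congr fun x hx => prim_eq_ind f hx

theorem hasDerivAt_prim {f : ℝ → ℝ} (hf : InL f) (cf : ContinuousOn f (Ioi 0)) {x : ℝ}
    (hx : 0 < x) : HasDerivAt (prim f) (f x) x :=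
  intervalIntegral.integral_hasDerivAt_right (hf.intervalIntegrable hx.le)
    (cf.stronglyMeasurableAtFilter isOpen_Ioi x hx) (cf.continuousAt (Ioi_mem_nhds hx))

theorem contDiffOn_prim {n : ℕ} {f : ℝ → ℝ} (hf : InL f) (cf : ContDiffOn ℝ n f (Ioi 0)) :
    ContDiffOn ℝ ((n + 1 : ℕ) : WithTop ℕ∞) (prim f) (Ioi 0) := by
  rw [Nat.cast_succ, contDiffOn_succ_iff_deriv_of_isOpen isOpen_Ioi]
  refine ⟨fun x hx => (hasDerivAt_prim hf cf.continuousOn hx).differentiableAt.differentiableWithinAt,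
    by simp, cf.congr fun x hx => (hasDerivAt_prim hf cf.continuousOn hx).deriv⟩

theorem ae_hasDerivAt_prim {f : ℝ → ℝ} (hf : InL f) :
    ∀ᵐ x ∂(volume.restrict (Ioi 0)), HasDerivAt (prim f) (f x) x := by
  refine (ae_restrict_iff' measurableSet_Ioi).2 ?_
  filter_upwards [_root_.LocallyIntegrable.ae_hasDerivAt_integral hf.locInt] with x hx hx0
  have h1 := hx 0
  rw [indicator_of_mem hx0] at h1
  refine h1.congr_of_eventuallyEq ?_
  filter_upwards [Ioi_mem_nhds hx0] with y hy using prim_eq_ind f hy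

theorem eqOn_of_ae {f h : ℝ → ℝ} (cf : ContinuousOn f (Ioi 0)) (ch : ContinuousOn h (Ioi 0))
    (e : f =ᵐ[volume.restrict (Ioi 0)] h) : EqOn f h (Ioi 0) :=
  Measure.eqOn_open_of_ae_eq e isOpen_Ioi cf ch

/-- `F` is (near infinity) a Laplace transform. -/
def IsLap (F : ℝ → ℝ) : Prop := ∃ f, InL f ∧ F =ᶠ[atTop] lap f

/-- `F` is (near infinity) the Laplace transform of a function which is `C^n` on `(0, ∞)`. -/
def Sm (n : ℕ) (F : ℝ → ℝ) : Prop :=
  ∃ f, InL f ∧ ContDiffOn ℝ n f (Ioi 0) ∧ F =ᶠ[atTop] lap f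

theorem Sm.isLap {n : ℕ} {F : ℝ → ℝ} (h : Sm n F) : IsLap F :=
  let ⟨f, h1, _, h3⟩ := h; ⟨f, h1, h3⟩

theorem IsLap.congr {F G : ℝ → ℝ} (h : IsLap F) (e : G =ᶠ[atTop] F) : IsLap G :=
  let ⟨f, h1, h3⟩ := h; ⟨f, h1, e.trans h3⟩

theorem Sm.congr {n : ℕ} {F G : ℝ → ℝ} (h : Sm n F) (e : G =ᶠ[atTop] F) : Sm n G :=
  let ⟨f, h1, h2, h3⟩ := h; ⟨f, h1, h2, e.trans h3⟩

theorem Sm.mono {m n : ℕ} {F : ℝ → ℝ} (h : Sm n F) (hmn : m ≤ n) : Sm m F :=
  let ⟨f, h1, h2, h3⟩ := h; ⟨f, h1, h2.of_le (by exact_mod_cast hmn), h3⟩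

theorem IsLap.add {F G : ℝ → ℝ} (hF : IsLap F) (hG : IsLap G) : IsLap (fun β => F β + G β) := by
  obtain ⟨f, h1, h3⟩ := hF
  obtain ⟨g, k1, k3⟩ := hG
  refine ⟨fun x => f x + g x, h1.add k1, ?_⟩
  filter_upwards [h1, k1, h3, k3] with β a1 a2 a3 a4
  rw [lap_add a1 a2, a3, a4]

theorem IsLap.mul {F G : ℝ → ℝ} (hF : IsLap F) (hG : IsLap G) : IsLap (fun β => F β * G β) := by
  obtain ⟨f, h1, h3⟩ := hF
  obtain ⟨g, k1, k3⟩ := hG
  refine ⟨conv f g, h1.conv k1, ?_⟩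
  filter_upwards [h1, k1, h3, k3] with β a1 a2 a3 a4
  rw [lap_conv a1 a2, a3, a4]

theorem IsLap.const_mul {F : ℝ → ℝ} (hF : IsLap F) (c : ℝ) : IsLap (fun β => c * F β) := by
  obtain ⟨f, h1, h3⟩ := hF
  refine ⟨fun x => c * f x, h1.const_mul c, ?_⟩
  filter_upwards [h3] with β a3
  rw [lap_const_mul, a3]

theorem Sm.add {n : ℕ} {F G : ℝ → ℝ} (hF : Sm n F) (hG : Sm n G) :
    Sm n (fun β => F β + G β) := by
  obtain ⟨f, h1, h2, h3⟩ := hF
  obtain ⟨g, k1, k2, k3⟩ := hG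
  refine ⟨fun x => f x + g x, h1.add k1, h2.add k2, ?_⟩
  filter_upwards [h1, k1, h3, k3] with β a1 a2 a3 a4
  rw [lap_add a1 a2, a3, a4]

theorem Sm.mul {n : ℕ} {F G : ℝ → ℝ} (hF : Sm n F) (hG : Sm n G) :
    Sm n (fun β => F β * G β) := by
  obtain ⟨f, h1, h2, h3⟩ := hF
  obtain ⟨g, k1, k2, k3⟩ := hG
  refine ⟨conv f g, h1.conv k1, contDiffOn_conv h1 k1 h2 k2, ?_⟩
  filter_upwards [h1, k1, h3, k3] with β a1 a2 a3 a4
  rw [lap_conv a1 a2, a3, a4]

theorem Sm.const_mul {n : ℕ} {F : ℝ → ℝ} (hF : Sm n F) (c : ℝ) : Sm n (fun β => c * F β) := by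
  obtain ⟨f, h1, h2, h3⟩ := hF
  refine ⟨fun x => c * f x, h1.const_mul c, contDiffOn_const.mul h2, ?_⟩
  filter_upwards [h3] with β a3
  rw [lap_const_mul, a3]

theorem IsLap.div {F : ℝ → ℝ} (hF : IsLap F) : Sm 0 (fun β => F β / β) := by
  obtain ⟨f, h1, h3⟩ := hF
  refine ⟨prim f, h1.prim, by simpa using continuousOn_prim h1, ?_⟩
  filter_upwards [h3, lap_prim h1] with β a3 a4
  rw [a4, a3]

theorem Sm.div {n : ℕ} {F : ℝ → ℝ} (hF : Sm n F) : Sm (n + 1) (fun β => F β / β) := by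
  obtain ⟨f, h1, h2, h3⟩ := hF
  refine ⟨prim f, h1.prim, contDiffOn_prim h1 h2, ?_⟩
  filter_upwards [h3, lap_prim h1] with β a3 a4
  rw [a4, a3]

theorem Sm.of_div {n : ℕ} {F : ℝ → ℝ} (hF : IsLap F) (h : Sm (n + 1) (fun β => F β / β)) :
    Sm n F := by
  obtain ⟨f, h1, h3⟩ := hF
  obtain ⟨u, k1, k2, k3⟩ := h
  have e : lap (prim f) =ᶠ[atTop] lap u := by
    filter_upwards [h3, lap_prim h1, k3] with β a3 a4 a5
    rw [a4, ← a3, a5]
  have e2 : EqOn (prim f) u (Ioi 0) :=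
    eqOn_of_ae (continuousOn_prim h1) k2.continuousOn (lap_unique h1.prim k1 e)
  rw [Nat.cast_succ, contDiffOn_succ_iff_deriv_of_isOpen isOpen_Ioi] at k2
  have e3 : f =ᵐ[volume.restrict (Ioi 0)] deriv u := by
    filter_upwards [ae_hasDerivAt_prim h1, ae_restrict_mem measurableSet_Ioi] with x hx hx0
    have : u =ᶠ[𝓝 x] prim f := by
      filter_upwards [Ioi_mem_nhds hx0] with y hy using (e2 hy).symm
    exact ((hx.congr_of_eventuallyEq this).deriv).symm
  refine ⟨deriv u, h1.congr e3, k2.2.2, ?_⟩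
  rw [← lap_congr e3]; exact h3

theorem Sm.of_id_mul {n : ℕ} {f : ℝ → ℝ} (hf : InL f) (h : Sm n (lap fun x => x * f x)) :
    Sm n (lap f) := by
  obtain ⟨u, k1, k2, k3⟩ := h
  have e := lap_unique hf.id_mul k1 k3
  have e3 : f =ᵐ[volume.restrict (Ioi 0)] fun x => u x / x := by
    filter_upwards [e, ae_restrict_mem measurableSet_Ioi] with x hx hx0
    have : x ≠ 0 := ne_of_gt hx0
    rw [← hx]; field_simp
  refine ⟨fun x => u x / x, hf.congr e3, k2.div contDiffOn_id fun x hx => ne_of_gt hx, ?_⟩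
  rw [← lap_congr e3]

theorem Sm.id_mul {n : ℕ} {f : ℝ → ℝ} (hf : InL f) (h : Sm n (lap f)) :
    Sm n (lap fun x => x * f x) := by
  obtain ⟨u, k1, k2, k3⟩ := h
  have e := lap_unique hf k1 k3
  have e3 : (fun x => x * f x) =ᵐ[volume.restrict (Ioi 0)] fun x => x * u x := by
    filter_upwards [e] with x hx
    rw [hx]
  refine ⟨fun x => x * u x, k1.id_mul, contDiffOn_id.mul k2, ?_⟩
  rw [← lap_congr e3]

theorem Sm.contDiffOn {n : ℕ} {f : ℝ → ℝ} (hf : InL f) (cf : ContinuousOn f (Ioi 0))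
    (h : Sm n (lap f)) : ContDiffOn ℝ n f (Ioi 0) := by
  obtain ⟨u, k1, k2, k3⟩ := h
  exact k2.congr (eqOn_of_ae cf k2.continuousOn (lap_unique hf k1 k3))

theorem sm_inv (n : ℕ) : Sm n (fun β => 1 / β) := by
  refine ⟨fun _ => 1, inL_one, contDiffOn_const, ?_⟩
  filter_upwards [eventually_gt_atTop 0] with β hβ using (lap_one hβ).symm

end Pool.Agent.H610Z.Lap
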