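import Pool.Agent.H610Z.Lap.B

/-! Resolvent kernels and transfer of smoothness. -/

set_option autoImplicit false
open MeasureTheory Set Filter Topology

namespace Pool.Agent.H610Z.Lap

noncomputable def pw (g : ℝ → ℝ) : ℕ → ℝ → ℝ
  | 0 => g
  | n + 1 => conv (pw g n) g

theorem E_abs (β : ℝ) (f : ℝ → ℝ) (x : ℝ) : E β (fun y => |f y|) x = ‖E β f x‖ := by
  simp [E, abs_of_pos (Real.exp_pos _)]

theorem integrableOn_E_abs {β : ℝ} {f : ℝ → ℝ} (hf : IntegrableOn (E β f) (Ioi 0)) :
    IntegrableOn (E β fun y => |f y|) (Ioi 0) := by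
  have : (E β fun y => |f y|) = fun x => ‖E β f x‖ := funext (E_abs β f)
  rw [this]; exact hf.norm

theorem norm_conv_le {β : ℝ} {f h : ℝ → ℝ} (hf : IntegrableOn (E β f) (Ioi 0))
    (hh : IntegrableOn (E β h) (Ioi 0)) :
    lap (fun y => |conv f h y|) β ≤ lap (fun y => |f y|) β * lap (fun y => |h y|) β := by
  rw [← lap_conv (integrableOn_E_abs hf) (integrableOn_E_abs hh)]
  unfold lap
  refine setIntegral_mono_on (integrableOn_E_abs (integrableOn_E_conv hf hh))
    (integrableOn_E_conv (integrableOn_E_abs hf) (integrableOn_E_abs hh)) measurableSet_Ioi ?_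
  intro x hx
  simp only [E]
  refine mul_le_mul_of_nonneg_left ?_ (Real.exp_pos _).le
  unfold conv
  have := intervalIntegral.abs_integral_le_integral_abs (f := fun t => f t * h (x - t))
    (μ := volume) (le_of_lt hx)
  simpa only [abs_mul] using this

theorem lap_abs_nonneg (β : ℝ) (f : ℝ → ℝ) : 0 ≤ lap (fun y => |f y|) β :=
  integral_nonneg fun _ => mul_nonneg (Real.exp_pos _).le (abs_nonneg _)

theorem pw_spec {β : ℝ} {g : ℝ → ℝ} (hg : IntegrableOn (E β g) (Ioi 0)) (n : ℕ) :
    IntegrableOn (E β (pw g n)) (Ioi 0) ∧ lap (pw g n) β = lap g β ^ (n + 1) ∧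
      lap (fun y => |pw g n y|) β ≤ lap (fun y => |g y|) β ^ (n + 1) := by
  induction n with
  | zero => simp [pw, hg]
  | succ n ih =>
    obtain ⟨h1, h2, h3⟩ := ih
    refine ⟨integrableOn_E_conv h1 hg, ?_, ?_⟩
    · rw [pw, lap_conv h1 hg, h2]; ring
    · rw [pw, pow_succ]
      exact (norm_conv_le h1 hg).trans (mul_le_mul_of_nonneg_right h3 (lap_abs_nonneg β g))

theorem tendsto_lap_abs {g : ℝ → ℝ} (hg : InL g) :
    Tendsto (lap fun y => |g y|) atTop (𝓝 0) := by
  obtain ⟨b, hb⟩ := hg.exists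
  have key := tendsto_integral_filter_of_dominated_convergence (μ := volume.restrict (Ioi 0))
    (l := atTop) (F := fun β x => E β (fun y => |g y|) x) (f := fun _ => (0 : ℝ))
    (fun x => ‖E b g x‖)
    (Eventually.of_forall fun β => aesm_E (hg.aesm.norm) β)
    (by
      filter_upwards [eventually_ge_atTop b] with β hβ
      refine (ae_restrict_iff' measurableSet_Ioi).2 (Eventually.of_forall fun x hx => ?_)
      rw [E_abs, norm_norm]
      simp only [E, norm_mul, Real.norm_eq_abs, abs_of_pos (Real.exp_pos _)]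
      refine mul_le_mul_of_nonneg_right (Real.exp_le_exp.2 ?_) (abs_nonneg _)
      have : 0 < x := hx
      nlinarith)
    hb.norm
    ((ae_restrict_iff' measurableSet_Ioi).2 (Eventually.of_forall fun x hx => by
      have hx' : 0 < x := hx
      have h1 : Tendsto (fun β : ℝ => Real.exp (-(β * x))) atTop (𝓝 0) :=
        Real.tendsto_exp_neg_atTop_nhds_zero.comp (tendsto_id.atTop_mul_const hx')
      simpa [E] using h1.mul_const |g x|))
  rw [integral_zero] at key
  exact key

theorem abs_lap_le (β : ℝ) (f : ℝ → ℝ) : |lap f β| ≤ lap (fun y => |f y|) β := by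
  unfold lap
  simp only [E_abs]
  exact norm_integral_le_integral_norm (E β f)

theorem exists_resolvent_one {g : ℝ → ℝ} (hg : InL g) :
    ∃ r, InL r ∧ ∀ᶠ β in atTop, (1 - lap g β) * (1 + lap r β) = 1 := by
  have main : ∀ᶠ β in atTop, IntegrableOn (E β fun x => ∑' n, pw g n x) (Ioi 0) ∧
      (1 - lap g β) * (1 + lap (fun x => ∑' n, pw g n x) β) = 1 := by
    filter_upwards [hg, (tendsto_lap_abs hg).eventually (gt_mem_nhds one_pos)] with β h1 h2
    have q0 := lap_abs_nonneg β g
    have e : (E β fun x => ∑' n, pw g n x) = fun x => ∑' n, E β (pw g n) x := by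
      funext x; simp only [E]; rw [tsum_mul_left]
    have hs : Summable fun n => ∫ x in Ioi (0 : ℝ), ‖E β (pw g n) x‖ := by
      refine Summable.of_nonneg_of_le (fun n => integral_nonneg fun x => norm_nonneg _)
        (fun n => ?_) ((summable_nat_add_iff 1).2 (summable_geometric_of_lt_one q0 h2))
      have := (pw_spec h1 n).2.2
      simpa only [lap, E_abs] using this
    have hsum := hasSum_integral_of_summable_integral_norm (μ := volume.restrict (Ioi 0))
      (F := fun n => E β (pw g n)) (fun n => (pw_spec h1 n).1) hs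
    have hq : |lap g β| < 1 := (abs_lap_le β g).trans_lt h2
    constructor
    · rw [e]
      refine ⟨AEStronglyMeasurable.tsum fun n => (pw_spec h1 n).1.1, ?_⟩
      unfold HasFiniteIntegral
      calc ∫⁻ x in Ioi (0 : ℝ), ‖∑' n, E β (pw g n) x‖ₑ
          ≤ ∫⁻ x in Ioi (0 : ℝ), ∑' n, ‖E β (pw g n) x‖ₑ :=
            lintegral_mono fun x => enorm_tsum_le_tsum_enorm
        _ = ∑' n, ∫⁻ x in Ioi (0 : ℝ), ‖E β (pw g n) x‖ₑ :=
            lintegral_tsum fun n => (pw_spec h1 n).1.1.enorm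
        _ = ∑' n, ENNReal.ofReal (∫ x in Ioi (0 : ℝ), ‖E β (pw g n) x‖) := by
            congr 1; funext n
            exact (ofReal_integral_norm_eq_lintegral_enorm (pw_spec h1 n).1).symm
        _ = ENNReal.ofReal (∑' n, ∫ x in Ioi (0 : ℝ), ‖E β (pw g n) x‖) :=
            (ENNReal.ofReal_tsum_of_nonneg (fun n => integral_nonneg fun x => norm_nonneg _)
              hs).symm
        _ < ⊤ := ENNReal.ofReal_lt_top
    · have h3 : HasSum (fun n => lap g β ^ (n + 1)) (lap (fun x => ∑' n, pw g n x) β) := by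
        have e2 : (fun n => lap g β ^ (n + 1)) = fun n => ∫ x in Ioi (0 : ℝ), E β (pw g n) x := by
          funext n; exact (pw_spec h1 n).2.1.symm
        rw [e2]; unfold lap; rw [e]; exact hsum
      have h4 : HasSum (fun n => lap g β ^ (n + 1)) (lap g β * (1 - lap g β)⁻¹) := by
        simpa only [pow_succ'] using (hasSum_geometric_of_abs_lt_one hq).mul_left (lap g β)
      rw [h3.unique h4]
      have : 1 - lap g β ≠ 0 := by
        have := (abs_lt.1 hq).2; linarith
      field_simp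
      ring
  exact ⟨_, main.mono fun β h => h.1, main.mono fun β h => h.2⟩

theorem exists_resolvent {g : ℝ → ℝ} (hg : InL g) {c : ℝ} (hc : c ≠ 0) :
    ∃ r, InL r ∧ ∀ᶠ β in atTop, (c + lap g β) * (c⁻¹ + lap r β) = 1 := by
  obtain ⟨r, h1, h2⟩ := exists_resolvent_one (hg.const_mul (-c⁻¹))
  refine ⟨fun x => c⁻¹ * r x, h1.const_mul _, ?_⟩
  filter_upwards [h2] with β hβ
  rw [lap_const_mul] at hβ ⊢
  rw [← hβ]; field_simp; ring

theorem lap_id_mul_resolvent {g r : ℝ → ℝ} (hg : InL g) (hr : InL r) {c d : ℝ}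
    (h : ∀ᶠ β in atTop, (c + lap g β) * (d + lap r β) = 1) :
    ∀ᶠ β in atTop, lap (fun x => x * r x) β =
      -(lap (fun x => x * g x) β) * (d + lap r β) ^ 2 := by
  obtain ⟨b, hb⟩ := eventually_atTop.1 h
  filter_upwards [hg.hasDerivAt, hr.hasDerivAt, eventually_gt_atTop b] with β h1 h2 h3
  have h4 := (h1.const_add c).mul (h2.const_add d)
  have h5 : HasDerivAt ((fun β => c + lap g β) * fun β => d + lap r β) 0 β := by
    refine (hasDerivAt_const β (1 : ℝ)).congr_of_eventuallyEq ?_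
    filter_upwards [Ioi_mem_nhds h3] with y hy
    exact hb y (le_of_lt hy)
  have h6 := h4.unique h5
  have h7 := hb β h3.le
  have : lap (fun x => x * r x) β = lap (fun x => x * r x) β * ((c + lap g β) * (d + lap r β)) := by
    rw [h7, mul_one]
  rw [this]
  linear_combination (-(d + lap r β)) * h6

/-- One direction of the transfer of smoothness, together with the symmetric structure. -/
theorem transfer {g r : ℝ → ℝ} (hg : InL g) (hr : InL r) {c d : ℝ}
    (h : ∀ᶠ β in atTop, (c + lap g β) * (d + lap r β) = 1) {Φ : ℝ → ℝ} (hΦ : IsLap Φ)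
    (e : lap (fun x => x * g x) =ᶠ[atTop] fun β => Φ β / β) :
    (∃ Ψ, IsLap Ψ ∧ lap (fun x => x * r x) =ᶠ[atTop] fun β => Ψ β / β) ∧
      ∀ k, Sm (k + 1) (lap g) → Sm (k + 1) (lap r) := by
  let Ψ : ℝ → ℝ := fun β => (-(d ^ 2)) * Φ β +
    (-1) * (Φ β * ((2 * d) * lap r β + lap r β * lap r β))
  have hr' : IsLap (lap r) := ⟨r, hr, EventuallyEq.rfl⟩
  have hΨ : IsLap Ψ :=
    (hΦ.const_mul _).add ((hΦ.mul ((hr'.const_mul _).add (hr'.mul hr'))).const_mul _)
  have e2 : lap (fun x => x * r x) =ᶠ[atTop] fun β => Ψ β / β := by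
    filter_upwards [lap_id_mul_resolvent hg hr h, e] with β h1 h2
    rw [h1, h2]; simp only [Ψ]; ring
  refine ⟨⟨Ψ, hΨ, e2⟩, fun k hk => ?_⟩
  have hΦk : Sm k Φ := Sm.of_div hΦ ((hk.id_mul hg).congr e.symm)
  have key : ∀ s, s ≤ k + 1 → Sm s (lap r) := by
    intro s
    induction s with
    | zero => intro _; exact Sm.of_id_mul hr (hΨ.div.congr e2)
    | succ s ih =>
      intro hs
      have h1 := ih (by omega)
      have h2 : Sm s Φ := hΦk.mono (by omega)
      have h3 : Sm s Ψ :=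
        (h2.const_mul _).add ((h2.mul ((h1.const_mul _).add (h1.mul h1))).const_mul _)
      exact Sm.of_id_mul hr (h3.div.congr e2)
  exact key _ le_rfl

theorem transfer_iff {g r : ℝ → ℝ} (hg : InL g) (hr : InL r) {c d : ℝ}
    (h : ∀ᶠ β in atTop, (c + lap g β) * (d + lap r β) = 1) {Φ : ℝ → ℝ} (hΦ : IsLap Φ)
    (e : lap (fun x => x * g x) =ᶠ[atTop] fun β => Φ β / β) (k : ℕ) :
    Sm (k + 1) (lap g) ↔ Sm (k + 1) (lap r) := by
  obtain ⟨⟨Ψ, hΨ, e2⟩, h2⟩ := transfer hg hr h hΦ e
  refine ⟨h2 k, (transfer hr hg (c := d) (d := c) ?_ hΨ e2).2 k⟩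
  filter_upwards [h] with β hβ
  rw [mul_comm]; exact hβ

end Pool.Agent.H610Z.Lap
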