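import Pool.Agent.H610Z.Lap.C

/-! The Laplace exponent of a spectrally negative Levy triplet as a Laplace transform. -/

set_option autoImplicit false
open MeasureTheory Set Filter Topology

namespace Pool.Agent.H610Z.Lap

noncomputable def K (t y : ℝ) : ℝ := max (-y - t) 0 + (if y ≤ -1 then y else 0)

noncomputable def J (t y : ℝ) : ℝ := if t < -y then t else 0

noncomputable def D2 (t y : ℝ) : ℝ := if -1 < y ∧ t < -y then -y else 0

noncomputable def D (t y : ℝ) : ℝ := (if y ≤ -1 then t else 0) + D2 t y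

theorem abs_K_le {t : ℝ} (ht : 0 < t) (y : ℝ) : |K t y| ≤ D t y := by
  unfold K D D2
  rw [abs_le]
  split_ifs with h1 h2 h2
  · linarith [h2.1]
  · constructor
    · have := le_max_left (-y - t) 0; linarith
    · have : max (-y - t) 0 ≤ -y := max_le (by linarith) (by linarith); linarith
  · constructor
    · have := le_max_right (-y - t) 0; linarith [h2.2]
    · have : max (-y - t) 0 ≤ -y := max_le (by linarith) (by linarith [h2.2]); linarith
  · have h3 : -y ≤ t := by
      by_contra h; exact h2 ⟨by linarith, by linarith⟩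
    rw [max_eq_right (by linarith)]; simp

theorem abs_J_le {t : ℝ} (ht : 0 < t) (y : ℝ) : |J t y| ≤ D t y := by
  unfold J D D2
  rw [abs_le]
  by_cases h1 : t < -y
  · rw [if_pos h1]
    by_cases h2 : y ≤ -1
    · rw [if_pos h2, if_neg (fun h => by linarith [h.1])]; constructor <;> linarith
    · rw [if_neg h2, if_pos ⟨not_le.1 h2, h1⟩]; constructor <;> linarith
  · rw [if_neg h1, if_neg (show ¬(-1 < y ∧ t < -y) from fun h => h1 h.2)]
    split_ifs <;> constructor <;> linarith

theorem measurable_K : Measurable (fun p : ℝ × ℝ => K p.1 p.2) := by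
  unfold K
  refine Measurable.add (by fun_prop) ?_
  exact Measurable.ite (measurableSet_le measurable_snd measurable_const) measurable_snd
    measurable_const

theorem measurable_J : Measurable (fun p : ℝ × ℝ => J p.1 p.2) := by
  unfold J
  exact Measurable.ite (measurableSet_lt measurable_fst measurable_snd.neg) measurable_fst
    measurable_const

theorem measurable_D2 : Measurable (fun p : ℝ × ℝ => D2 p.1 p.2) := by
  unfold D2
  exact Measurable.ite ((measurableSet_lt measurable_const measurable_snd).inter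
    (measurableSet_lt measurable_fst measurable_snd.neg)) measurable_snd.neg measurable_const

section
variable {μ : Measure ℝ}

theorem sFinite_levy (h0 : μ (Ici 0) = 0)
    (h2 : ∫⁻ x, ENNReal.ofReal (min 1 (x ^ 2)) ∂μ < ⊤) : SFinite μ := by
  have hm : Measurable fun x : ℝ => ENNReal.ofReal (min 1 (x ^ 2)) := by fun_prop
  have : IsFiniteMeasure (μ.withDensity fun x => ENNReal.ofReal (min 1 (x ^ 2))) :=
    isFiniteMeasure_withDensity h2.ne
  refine sFinite_of_absolutelyContinuous
    (ν := μ.withDensity fun x => ENNReal.ofReal (min 1 (x ^ 2))) ?_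
  refine withDensity_absolutelyContinuous' hm.aemeasurable ?_
  have : ∀ᵐ y ∂μ, y ∉ Ici (0 : ℝ) := measure_eq_zero_iff_ae_notMem.1 h0
  filter_upwards [this] with y hy
  have hy' : y < 0 := not_le.1 hy
  have : 0 < min 1 (y ^ 2) := lt_min one_pos (by nlinarith)
  exact (ENNReal.ofReal_pos.2 this).ne'

theorem tail_lt_top (h2 : ∫⁻ x, ENNReal.ofReal (min 1 (x ^ 2)) ∂μ < ⊤) {z : ℝ} (hz : 0 < z) :
    μ (Iic (-z)) < ⊤ := by
  have hm : Measurable fun x : ℝ => ENNReal.ofReal (min 1 (x ^ 2)) := by fun_prop
  have hε : 0 < min 1 (z ^ 2) := lt_min one_pos (by positivity)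
  have h1 := meas_ge_le_lintegral_div (μ := μ) hm.aemeasurable
    (ε := ENNReal.ofReal (min 1 (z ^ 2))) (ENNReal.ofReal_pos.2 hε).ne' ENNReal.ofReal_ne_top
  refine lt_of_le_of_lt (measure_mono ?_) (h1.trans_lt ?_)
  · intro x hx
    have hx' : x ≤ -z := hx
    refine ENNReal.ofReal_le_ofReal (min_le_min le_rfl ?_)
    nlinarith
  · exact ENNReal.div_lt_top h2.ne (ENNReal.ofReal_pos.2 hε).ne'

theorem integrable_D2 [SFinite μ] (h2 : ∫⁻ x, ENNReal.ofReal (min 1 (x ^ 2)) ∂μ < ⊤) :
    Integrable (fun p : ℝ × ℝ => D2 p.1 p.2) ((volume.restrict (Ioi 0)).prod μ) := by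
  refine ⟨measurable_D2.aestronglyMeasurable, ?_⟩
  unfold HasFiniteIntegral
  rw [lintegral_prod_symm _ measurable_D2.enorm.aemeasurable]
  refine lt_of_le_of_lt (lintegral_mono fun y => ?_) h2
  by_cases hy : -1 < y ∧ y < 0
  · calc ∫⁻ t in Ioi (0 : ℝ), ‖D2 t y‖ₑ
        ≤ ∫⁻ t in Ioi (0 : ℝ), indicator (Iio (-y)) (fun _ => ENNReal.ofReal (-y)) t := by
          refine lintegral_mono fun t => ?_
          unfold D2
          split_ifs with h
          · rw [indicator_of_mem (mem_Iio.2 h.2), Real.enorm_of_nonneg (by linarith [hy.2])]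
          · simp
      _ = ENNReal.ofReal (-y) * ENNReal.ofReal (-y) := by
          rw [lintegral_indicator_const measurableSet_Iio, Measure.restrict_apply measurableSet_Iio,
            Iio_inter_Ioi, Real.volume_Ioo, sub_zero]
      _ = ENNReal.ofReal (min 1 (y ^ 2)) := by
          rw [← ENNReal.ofReal_mul (by linarith [hy.2]), min_eq_right (by nlinarith [hy.1, hy.2])]
          congr 1; ring
  · have : ∫⁻ t in Ioi (0 : ℝ), ‖D2 t y‖ₑ = ∫⁻ t in Ioi (0 : ℝ), 0 := by
      refine setLIntegral_congr_fun measurableSet_Ioi fun t ht => ?_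
      have ht' : 0 < t := ht
      unfold D2
      rw [if_neg]
      · simp
      · rintro ⟨h3, h4⟩
        exact hy ⟨h3, by linarith⟩
    rw [this]; simp

theorem integrable_ED [SFinite μ] (h2 : ∫⁻ x, ENNReal.ofReal (min 1 (x ^ 2)) ∂μ < ⊤) :
    ∀ᶠ β in atTop, Integrable (fun p : ℝ × ℝ => Real.exp (-(β * p.1)) * D p.1 p.2)
      ((volume.restrict (Ioi 0)).prod μ) := by
  filter_upwards [inL_one.id_mul, eventually_gt_atTop 0] with β h1 hβ
  have h3 : Integrable (indicator (Iic (-1 : ℝ)) fun _ => (1 : ℝ)) μ := by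
    rw [integrable_indicator_iff measurableSet_Iic]
    exact integrableOn_const (tail_lt_top h2 one_pos).ne
  have h4 := Integrable.mul_prod h1 h3
  have h5 : Integrable (fun p : ℝ × ℝ => Real.exp (-(β * p.1)) * D2 p.1 p.2)
      ((volume.restrict (Ioi 0)).prod μ) := by
    refine Integrable.bdd_mul (c := 1) (integrable_D2 h2) (by fun_prop) ?_
    have : ∀ᵐ t ∂(volume.restrict (Ioi (0 : ℝ))), ‖Real.exp (-(β * t))‖ ≤ 1 := by
      filter_upwards [ae_restrict_mem measurableSet_Ioi] with t ht
      have ht' : 0 < t := ht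
      rw [Real.norm_eq_abs, abs_of_pos (Real.exp_pos _), Real.exp_le_one_iff]
      nlinarith
    exact (Measure.quasiMeasurePreserving_fst (μ := volume.restrict (Ioi (0 : ℝ))) (ν := μ)).ae this
  refine (h4.add h5).congr (Eventually.of_forall fun p => ?_)
  simp only [Pi.add_apply, E, D, indicator, mem_Iic]
  split_ifs <;> ring

theorem integrable_of_le_D [SFinite μ] (h2 : ∫⁻ x, ENNReal.ofReal (min 1 (x ^ 2)) ∂μ < ⊤)
    {F : ℝ → ℝ → ℝ} (hF : Measurable fun p : ℝ × ℝ => F p.1 p.2)
    (hle : ∀ t, 0 < t → ∀ y, |F t y| ≤ D t y) :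
    ∀ᶠ β in atTop, Integrable (fun p : ℝ × ℝ => Real.exp (-(β * p.1)) * F p.1 p.2)
      ((volume.restrict (Ioi 0)).prod μ) := by
  filter_upwards [integrable_ED h2] with β h1
  refine h1.mono' (Measurable.aestronglyMeasurable (Measurable.mul (by fun_prop) hF)) ?_
  have : ∀ᵐ p : ℝ × ℝ ∂((volume.restrict (Ioi (0 : ℝ))).prod μ), p.1 ∈ Ioi (0 : ℝ) :=
    (Measure.quasiMeasurePreserving_fst (μ := volume.restrict (Ioi (0 : ℝ))) (ν := μ)).ae
      (ae_restrict_mem measurableSet_Ioi)
  filter_upwards [this] with p hp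
  rw [norm_mul, Real.norm_eq_abs, Real.norm_eq_abs, abs_of_pos (Real.exp_pos _)]
  exact mul_le_mul_of_nonneg_left (hle _ hp _) (Real.exp_pos _).le

theorem inL_mix [SFinite μ] {F : ℝ → ℝ → ℝ}
    (h : ∀ᶠ β in atTop, Integrable (fun p : ℝ × ℝ => Real.exp (-(β * p.1)) * F p.1 p.2)
      ((volume.restrict (Ioi 0)).prod μ)) : InL (fun t => ∫ y, F t y ∂μ) := by
  filter_upwards [h] with β h1
  have := h1.integral_prod_left
  refine Integrable.congr this (Eventually.of_forall fun t => ?_)
  simp only [E]
  rw [integral_const_mul]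

theorem lap_mix [SFinite μ] {F : ℝ → ℝ → ℝ} {β : ℝ}
    (h : Integrable (fun p : ℝ × ℝ => Real.exp (-(β * p.1)) * F p.1 p.2)
      ((volume.restrict (Ioi 0)).prod μ)) :
    lap (fun t => ∫ y, F t y ∂μ) β = ∫ y, lap (fun t => F t y) β ∂μ := by
  unfold lap
  simp only [E]
  rw [← integral_integral_swap (f := fun t y => Real.exp (-(β * t)) * F t y) h]
  congr 1
  funext t
  rw [integral_const_mul]

theorem prim_mix [SFinite μ] {F : ℝ → ℝ → ℝ} {β : ℝ}
    (h : Integrable (fun p : ℝ × ℝ => Real.exp (-(β * p.1)) * F p.1 p.2)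
      ((volume.restrict (Ioi 0)).prod μ)) {x : ℝ} (hx : 0 < x) :
    Integrable (fun p : ℝ × ℝ => F p.1 p.2) ((volume.restrict (uIoc 0 x)).prod μ) := by
  rw [uIoc_of_le hx.le]
  have h1 : Integrable (fun p : ℝ × ℝ => Real.exp (-(β * p.1)) * F p.1 p.2)
      ((volume.restrict (Ioc 0 x)).prod μ) :=
    h.mono_measure (Measure.prod_mono (Measure.restrict_mono Ioc_subset_Ioi_self le_rfl) le_rfl)
  have h3 : Integrable (fun p : ℝ × ℝ => Real.exp (β * p.1) * (Real.exp (-(β * p.1)) * F p.1 p.2))
      ((volume.restrict (Ioc 0 x)).prod μ) := by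
    refine Integrable.bdd_mul (c := Real.exp (|β| * x)) h1 (by fun_prop) ?_
    have : ∀ᵐ t ∂(volume.restrict (Ioc (0 : ℝ) x)), ‖Real.exp (β * t)‖ ≤ Real.exp (|β| * x) := by
      filter_upwards [ae_restrict_mem measurableSet_Ioc] with t ht
      rw [Real.norm_eq_abs, abs_of_pos (Real.exp_pos _), Real.exp_le_exp]
      have := le_abs_self β
      have := abs_nonneg β
      nlinarith [ht.1, ht.2]
    exact (Measure.quasiMeasurePreserving_fst (μ := volume.restrict (Ioc (0 : ℝ) x)) (ν := μ)).ae
      this
  refine h3.congr (Eventually.of_forall fun p => ?_)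
  simp only
  rw [← mul_assoc, ← Real.exp_add]; simp

end

theorem lap_K {β : ℝ} (hβ : 0 < β) {y : ℝ} (hy : y < 0) :
    β ^ 2 * lap (fun t => K t y) β =
      Real.exp (β * y) - 1 - (Ioi (-1 : ℝ)).indicator (fun y => β * y) y := by
  have h1 : ∀ t, E β (fun t => max (-y - t) 0) t =
      indicator (Iic (-y)) (fun t => Real.exp (-(β * t)) * (-y - t)) t := by
    intro t
    by_cases h : t ≤ -y
    · rw [indicator_of_mem (mem_Iic.2 h)]; simp only [E]; rw [max_eq_left (by linarith)]
    · rw [indicator_of_notMem (by simpa using h)]; simp only [E]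
      rw [max_eq_right (by linarith), mul_zero]
  have h2 : IntegrableOn (E β fun t => max (-y - t) 0) (Ioi 0) := by
    rw [funext h1, IntegrableOn, integrable_indicator_iff measurableSet_Iic, IntegrableOn,
      Measure.restrict_restrict measurableSet_Iic, Iic_inter_Ioi]
    exact (Continuous.integrableOn_Icc (by fun_prop)).mono_set Ioc_subset_Icc_self
  have h3 : lap (fun t => max (-y - t) 0) β = (Real.exp (β * y) - 1 - β * y) / β ^ 2 := by
    unfold lap
    simp only [h1]
    rw [integral_indicator measurableSet_Iic, Measure.restrict_restrict measurableSet_Iic,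
      Iic_inter_Ioi, ← intervalIntegral.integral_of_le (by linarith)]
    rw [intervalIntegral.integral_eq_sub_of_hasDerivAt
      (f := fun t => -((-y - t) * Real.exp (-(β * t))) / β + Real.exp (-(β * t)) / β ^ 2)]
    · simp only [mul_neg, neg_neg, sub_self, zero_mul, neg_zero, zero_div, zero_add, mul_zero,
        Real.exp_zero, sub_zero, mul_one]
      field_simp
      ring
    · intro t _
      have a1 : HasDerivAt (fun t : ℝ => -(β * t)) (-(β * 1)) t :=
        ((hasDerivAt_id t).const_mul β).neg
      have a2 : HasDerivAt (fun t : ℝ => -y - t) (0 - 1) t :=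
        (hasDerivAt_const t (-y)).sub (hasDerivAt_id t)
      have a3 := (((a2.mul a1.exp).neg).div_const β).add (a1.exp.div_const (β ^ 2))
      have e : Real.exp (-(β * t)) * (-y - t) =
          -((0 - 1) * Real.exp (-(β * t)) + (-y - t) * (Real.exp (-(β * t)) * -(β * 1))) / β +
            Real.exp (-(β * t)) * -(β * 1) / β ^ 2 := by
        field_simp
        ring
      rw [e]
      exact a3
    · exact Continuous.intervalIntegrable (by fun_prop) _ _
  have h4 : (fun t => K t y) = fun t => max (-y - t) 0 + (if y ≤ -1 then y else 0) * 1 := by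
    funext t; simp [K]
  have h5 : IntegrableOn (E β fun _ => (if y ≤ -1 then y else 0) * 1) (Ioi 0) := by
    have : (E β fun _ => (if y ≤ -1 then y else 0) * 1) =
        fun t => (if y ≤ -1 then y else 0) * E β (fun _ => 1) t := by
      funext t; simp only [E]; ring
    rw [this]; exact (integrableOn_E_one hβ).const_mul _
  rw [h4, lap_add h2 h5, h3, lap_const_mul β _ (fun _ => 1), lap_one hβ]
  by_cases h : y ≤ -1
  · rw [if_pos h, indicator_of_notMem (by simpa using h)]; field_simp; ring
  · rw [if_neg h, indicator_of_mem (by simpa using h)]; field_simp; ring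

theorem mul_K_eq (y : ℝ) {x : ℝ} (hx : 0 < x) :
    ∫ t in (0 : ℝ)..x, (K t y - J t y) = x * K x y := by
  have hi : IntervalIntegrable (fun t => K t y - J t y) volume 0 x := by
    refine IntervalIntegrable.sub (Continuous.intervalIntegrable (by unfold K; fun_prop) _ _) ?_
    have : (fun t => J t y) = indicator (Iio (-y)) (fun t => t) := by
      funext t; simp only [J, indicator, mem_Iio]
    rw [this, intervalIntegrable_iff]
    exact (continuous_id.intervalIntegrable 0 x).def'.indicator measurableSet_Iio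
  rw [intervalIntegral.integral_eq_sub_of_hasDeriv_right_of_le hx.le (f := fun t => t * K t y)
    (Continuous.continuousOn (by unfold K; fun_prop)) ?_ hi]
  · simp
  intro t _
  by_cases h : t < -y
  · have a2 : HasDerivAt (fun t : ℝ => t * (-y - t + (if y ≤ -1 then y else 0)))
        (1 * (-y - t + (if y ≤ -1 then y else 0)) + t * (0 - 1)) t :=
      (hasDerivAt_id t).mul (((hasDerivAt_const t (-y)).sub (hasDerivAt_id t)).add_const _)
    have a3 : HasDerivAt (fun t : ℝ => t * K t y)
        (1 * (-y - t + (if y ≤ -1 then y else 0)) + t * (0 - 1)) t := by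
      refine a2.congr_of_eventuallyEq ?_
      filter_upwards [Iio_mem_nhds h] with s hs
      have : s < -y := hs
      unfold K; rw [max_eq_left (by linarith)]
    convert a3.hasDerivWithinAt using 1
    unfold K J; rw [max_eq_left (by linarith), if_pos h]; ring
  · have a2 : HasDerivAt (fun t : ℝ => t * (if y ≤ -1 then y else 0))
        (1 * (if y ≤ -1 then y else 0)) t := (hasDerivAt_id t).mul_const _
    have e : K t y - J t y = 1 * (if y ≤ -1 then y else 0) := by
      unfold K J; rw [max_eq_right (by linarith), if_neg h]; ring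
    rw [e]
    refine a2.hasDerivWithinAt.congr (fun s hs => ?_) ?_
    · have : t < s := hs
      unfold K; rw [max_eq_right (by linarith), zero_add]
    · unfold K; rw [max_eq_right (by linarith), zero_add]

end Pool.Agent.H610Z.Lap
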