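import Pool.Agent.H610Z.Lap.D

/-! Smoothness of the scale function of a spectrally negative Levy process with Gaussian part. -/

set_option autoImplicit false
open MeasureTheory Set Filter Topology

namespace Pool.Agent.H610Z.Lap

theorem eqOn_of_antitoneOn {T v : ℝ → ℝ} (hT : AntitoneOn T (Ioi 0))
    (hv : ContinuousOn v (Ioi 0)) (e : T =ᵐ[volume.restrict (Ioi 0)] v) : EqOn T v (Ioi 0) := by
  have hd : Dense {s : ℝ | s ∈ Ioi (0 : ℝ) → T s = v s} :=
    Measure.dense_of_ae ((ae_restrict_iff' measurableSet_Ioi).1 e)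
  intro x hx
  have hx' : 0 < x := hx
  have hc := hv.continuousAt (Ioi_mem_nhds hx')
  rcases lt_trichotomy (T x) (v x) with h | h | h
  · exfalso
    have h1 : ∀ᶠ s in 𝓝[>] x, T x < v s := (hc.eventually (lt_mem_nhds h)).filter_mono nhdsWithin_le_nhds
    obtain ⟨u, hu, hs⟩ := mem_nhdsGT_iff_exists_Ioo_subset.1 h1
    obtain ⟨z, hz, hz2⟩ := hd.exists_between hu
    have hz0 : z ∈ Ioi (0 : ℝ) := hx'.trans hz2.1
    have h3 : T x < v z := hs hz2
    have h4 := hT hx hz0 hz2.1.le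
    rw [hz hz0] at h4
    linarith
  · exact h
  · exfalso
    have h1 : ∀ᶠ s in 𝓝[<] x, v s < T x ∧ 0 < s :=
      ((hc.eventually (gt_mem_nhds h)).and (lt_mem_nhds hx')).filter_mono nhdsWithin_le_nhds
    obtain ⟨u, hu, hs⟩ := mem_nhdsLT_iff_exists_Ioo_subset.1 h1
    obtain ⟨z, hz, hz2⟩ := hd.exists_between hu
    have h3 : v z < T x ∧ 0 < z := hs hz2
    have hz0 : z ∈ Ioi (0 : ℝ) := h3.2
    have h4 := hT hz0 hx hz2.2.le
    rw [hz hz0] at h4
    linarith [h3.1]

theorem levy_structure {μ : Measure ℝ} (a : ℝ) (h0 : μ (Ici 0) = 0)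
    (h2 : ∫⁻ x, ENNReal.ofReal (min 1 (x ^ 2)) ∂μ < ⊤) :
    ∃ g j : ℝ → ℝ, InL g ∧ InL j ∧ (∀ t, 0 < t → j t = t * (μ (Iio (-t))).toReal) ∧
      (lap (fun x => x * g x) =ᶠ[atTop] fun β => (lap g β + (-1) * lap j β) / β) ∧
      ∀ᶠ β in atTop, β ^ 2 * lap g β = -(a * β) +
        ∫ x, (Real.exp (β * x) - 1 - (Set.Ioi (-1 : ℝ)).indicator (fun y => β * y) x) ∂μ := by
  have := sFinite_levy h0 h2
  have hK := integrable_of_le_D h2 measurable_K (fun t ht y => abs_K_le ht y)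
  have hJ := integrable_of_le_D h2 measurable_J (fun t ht y => abs_J_le ht y)
  have hKJ : ∀ᶠ β in atTop, Integrable
      (fun p : ℝ × ℝ => Real.exp (-(β * p.1)) * (K p.1 p.2 - J p.1 p.2))
      ((volume.restrict (Ioi 0)).prod μ) := by
    filter_upwards [hK, hJ] with β h3 h4
    refine (h3.sub h4).congr (Eventually.of_forall fun p => ?_)
    simp only [Pi.sub_apply]; ring
  have lg0 : InL (fun t => ∫ y, K t y ∂μ) := inL_mix hK
  have lj : InL (fun t => ∫ y, J t y ∂μ) := inL_mix hJ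
  have lφ0 : InL (fun t => ∫ y, (K t y - J t y) ∂μ) := inL_mix (F := fun t y => K t y - J t y) hKJ
  have la : InL (fun _ => (-a) * 1) := inL_one.const_mul (-a)
  have lg : InL (fun t => (-a) * 1 + ∫ y, K t y ∂μ) := la.add lg0
  have lφ : InL (fun t => (-a) * 1 + ∫ y, (K t y - J t y) ∂μ) := la.add lφ0
  refine ⟨fun t => (-a) * 1 + ∫ y, K t y ∂μ, fun t => ∫ y, J t y ∂μ, lg, lj, ?_, ?_, ?_⟩
  · intro t _
    have : (fun y => J t y) = indicator (Iio (-t)) (fun _ => t) := by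
      funext y
      simp only [J, indicator, mem_Iio]
      exact if_congr ⟨fun h => by linarith, fun h => by linarith⟩ rfl rfl
    simp only [this]
    rw [integral_indicator_const _ measurableSet_Iio, smul_eq_mul, mul_comm]
    rfl
  · obtain ⟨b, hb1, hb2, hb3⟩ := (hK.and (hJ.and hKJ)).exists
    have e1 : (fun x => x * ((-a) * 1 + ∫ y, K x y ∂μ)) =ᵐ[volume.restrict (Ioi 0)]
        prim (fun t => (-a) * 1 + ∫ y, (K t y - J t y) ∂μ) := by
      filter_upwards [ae_restrict_mem measurableSet_Ioi] with x hx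
      have hx' : 0 < x := hx
      unfold prim
      rw [intervalIntegral.integral_add (la.intervalIntegrable hx'.le)
        (lφ0.intervalIntegrable hx'.le),
        intervalIntegral_integral_swap (f := fun t y => K t y - J t y)
          (prim_mix (F := fun t y => K t y - J t y) hb3 hx')]
      simp only [mul_K_eq _ hx']
      rw [integral_const_mul]
      simp
      ring
    have e2 : (fun t => (-a) * 1 + ∫ y, (K t y - J t y) ∂μ) =ᵐ[volume.restrict (Ioi 0)]
        fun t => ((-a) * 1 + ∫ y, K t y ∂μ) + (-1) * ∫ y, J t y ∂μ := by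
      filter_upwards [hb1.prod_right_ae, hb2.prod_right_ae] with t h3 h4
      have hu : IsUnit (Real.exp (-(b * t))) := (Real.exp_pos _).ne'.isUnit
      rw [integral_sub ((integrable_const_mul_iff hu _).1 h3) ((integrable_const_mul_iff hu _).1 h4)]
      ring
    filter_upwards [lap_prim lφ, lg, lj.const_mul (-1)] with β h3 h4 h5
    rw [lap_congr e1, h3, lap_congr e2, lap_add h4 h5, lap_const_mul β (-1)]
  · have hneg : ∀ᵐ y ∂μ, y ∉ Ici (0 : ℝ) := measure_eq_zero_iff_ae_notMem.1 h0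
    filter_upwards [hK, la, lg0, eventually_gt_atTop 0] with β h3 h4 h5 hβ
    rw [lap_add h4 h5, lap_const_mul β (-a) (fun _ => 1), lap_one hβ, lap_mix h3, mul_add,
      ← integral_const_mul]
    congr 1
    · field_simp
    · refine integral_congr_ae ?_
      filter_upwards [hneg] with y hy
      exact lap_K hβ (not_le.1 hy)

theorem tail_iff {T g j : ℝ → ℝ} (hT : AntitoneOn T (Ioi 0)) (lg : InL g) (lj : InL j)
    (hj : ∀ t, 0 < t → j t = t * T t)
    (e : lap (fun x => x * g x) =ᶠ[atTop] fun β => (lap g β + (-1) * lap j β) / β) (k : ℕ) :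
    Sm (k + 1) (lap g) ↔ ContDiffOn ℝ k T (Ioi 0) := by
  have hΦ : IsLap fun β => lap g β + (-1) * lap j β :=
    IsLap.add ⟨g, lg, EventuallyEq.rfl⟩ (IsLap.const_mul ⟨j, lj, EventuallyEq.rfl⟩ _)
  constructor
  · intro h
    have h1 := Sm.of_div hΦ ((h.id_mul lg).congr e.symm)
    have h2 : Sm k (lap j) :=
      ((h.mono (Nat.le_succ k)).add (h1.const_mul (-1))).congr
        (Eventually.of_forall fun β => by ring)
    obtain ⟨u, k1, k2, k3⟩ := h2
    have h3 := lap_unique lj k1 k3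
    have h4 : T =ᵐ[volume.restrict (Ioi 0)] fun x => u x / x := by
      filter_upwards [h3, ae_restrict_mem measurableSet_Ioi] with x hx hx0
      have : x ≠ 0 := ne_of_gt hx0
      rw [← hx, hj x hx0]; field_simp
    have h5 : ContDiffOn ℝ k (fun x => u x / x) (Ioi 0) :=
      k2.div contDiffOn_id fun x hx => ne_of_gt hx
    exact h5.congr (eqOn_of_antitoneOn hT h5.continuousOn h4)
  · intro h
    have h1 : Sm k (lap j) :=
      ⟨j, lj, (contDiffOn_id.mul h).congr fun x hx => hj x hx, EventuallyEq.rfl⟩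
    have key : ∀ s, s ≤ k + 1 → Sm s (lap g) := by
      intro s
      induction s with
      | zero => intro _; exact Sm.of_id_mul lg (hΦ.div.congr e)
      | succ s ih =>
        intro hs
        have h3 := (ih (by omega)).add ((h1.mono (show s ≤ k by omega)).const_mul (-1))
        exact Sm.of_id_mul lg (h3.div.congr e)
    exact key _ le_rfl

theorem scale_iff {W r : ℝ → ℝ} (lW : InL W) (cW : ContinuousOn W (Ioi 0)) (lr : InL r) {d : ℝ}
    (e : lap W =ᶠ[atTop] fun β => d * (1 / β / β) + lap r β / β / β) (k : ℕ) :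
    Sm (k + 1) (lap r) ↔ ContDiffOn ℝ ((k + 3 : ℕ) : WithTop ℕ∞) W (Ioi 0) := by
  have hr : IsLap (lap r) := ⟨r, lr, EventuallyEq.rfl⟩
  have h1 : Sm (k + 3) fun β => 1 / β / β := (sm_inv (k + 2)).div
  constructor
  · intro h
    exact Sm.contDiffOn lW cW (((h1.const_mul d).add h.div.div).congr e)
  · intro h
    have h2 : Sm (k + 3) (lap W) := ⟨W, lW, h, EventuallyEq.rfl⟩
    have h3 : Sm (k + 3) fun β => lap r β / β / β := by
      refine (h2.add (h1.const_mul (-d))).congr ?_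
      filter_upwards [e] with β hβ
      rw [hβ]; ring
    exact Sm.of_div hr (Sm.of_div hr.div.isLap h3)

theorem doney (μ : Measure ℝ) (a σ : ℝ) (W : ℝ → ℝ) (h0 : μ (Set.Ici 0) = 0)
    (h2 : ∫⁻ x, ENNReal.ofReal (min 1 (x ^ 2)) ∂μ < ⊤) (hσ : σ ≠ 0)
    (cW : ContinuousOn W (Set.Ioi 0))
    (hW : ∃ β₀ : ℝ, ∀ β : ℝ, β₀ < β →
      MeasureTheory.IntegrableOn (fun x => Real.exp (-(β * x)) * W x) (Set.Ioi 0) ∧
      ∫ x in Set.Ioi (0 : ℝ), Real.exp (-(β * x)) * W x =
        1 / (-(a * β) + σ ^ 2 * β ^ 2 / 2 +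
          ∫ x, (Real.exp (β * x) - 1 - (Set.Ioi (-1 : ℝ)).indicator (fun y => β * y) x) ∂μ))
    (k : ℕ) :
    ContDiffOn ℝ ((k + 3 : ℕ) : WithTop ℕ∞) W (Set.Ioi 0) ↔
      ContDiffOn ℝ (k : WithTop ℕ∞) (fun y => (μ (Set.Iio (-y))).toReal) (Set.Ioi 0) := by
  obtain ⟨β₀, hβ₀⟩ := hW
  obtain ⟨g, j, lg, lj, hj, e, hψ⟩ := levy_structure a h0 h2
  have hc : σ ^ 2 / 2 ≠ 0 := by positivity
  obtain ⟨r, lr, hr⟩ := exists_resolvent lg hc
  have lW : InL W := by
    filter_upwards [eventually_gt_atTop β₀] with β hβ using (hβ₀ β hβ).1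
  have hT : AntitoneOn (fun y => (μ (Set.Iio (-y))).toReal) (Ioi 0) := by
    intro x hx y _ hxy
    refine ENNReal.toReal_mono ?_ (measure_mono (Iio_subset_Iio (by linarith)))
    exact ((measure_mono Iio_subset_Iic_self).trans_lt (tail_lt_top h2 hx)).ne
  have hΦ : IsLap fun β => lap g β + (-1) * lap j β :=
    IsLap.add ⟨g, lg, EventuallyEq.rfl⟩ (IsLap.const_mul ⟨j, lj, EventuallyEq.rfl⟩ _)
  rw [← tail_iff hT lg lj hj e k, transfer_iff lg lr hr hΦ e k]
  refine (scale_iff lW cW lr (d := (σ ^ 2 / 2)⁻¹) ?_ k).symm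
  filter_upwards [eventually_gt_atTop β₀, eventually_gt_atTop 0, hψ, hr] with β h3 h4 h5 h6
  have h7 : lap W β = 1 / (β ^ 2 * (σ ^ 2 / 2 + lap g β)) := by
    refine (hβ₀ β h3).2.trans ?_
    congr 1
    rw [mul_add, h5]; ring
  have h8 : σ ^ 2 / 2 + lap g β ≠ 0 := left_ne_zero_of_mul_eq_one h6
  have h9 : (σ ^ 2 / 2)⁻¹ + lap r β = (σ ^ 2 / 2 + lap g β)⁻¹ := (inv_eq_of_mul_eq_one_right h6).symm
  have : (σ ^ 2 / 2)⁻¹ * (1 / β / β) + lap r β / β / β = ((σ ^ 2 / 2)⁻¹ + lap r β) / β / β := by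
    ring
  rw [h7, this, h9]
  field_simp

end Pool.Agent.H610Z.Lap
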